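import Pool.Agent.H143R3.MT.Stmts

set_option autoImplicit false

/-! TaskCross of project H143-MT (helper62). -/

namespace Pool.Agent.H62R3.MT

open Pool.Agent.H143R3.MT
open scoped ENNReal NNReal

theorem conv_mono {q f g : ℤ → ℝ≥0∞} (h : ∀ w, f w ≤ g w) (z : ℤ) :
    conv q f z ≤ conv q g z :=
  ENNReal.tsum_le_tsum fun k => mul_le_mul_right (h _) _

theorem av_le_one {q : ℤ → ℝ≥0∞} (hq : ∑' k, q k = 1) :
    ∀ (l : List ℤ) (z : ℤ), av q l (fun _ => 1) z ≤ 1 := by
  intro l
  induction l with
  | nil => intro z; exact le_refl _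
  | cons x l ih =>
    intro z
    simp only [av]
    split_ifs
    · exact zero_le
    · calc conv q (av q l fun _ => 1) z ≤ conv q (fun _ => 1) z := conv_mono ih z
        _ = 1 := by simp [conv, hq]

theorem phi_mono (q : ℤ → ℝ≥0∞) : ∀ (k : ℕ) (y y' : ℤ), y ≤ y' → phi q k y ≤ phi q k y' := by
  intro k
  induction k with
  | zero =>
    intro y y' h
    simp only [phi]
    by_cases h1 : 0 < y
    · rw [if_pos h1, if_pos (lt_of_lt_of_le h1 h)]
    · rw [if_neg h1]; exact zero_le
  | succ k ih =>
    intro y y' h
    simp only [phi]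
    by_cases h1 : 0 < y
    · rw [if_pos h1, if_pos (lt_of_lt_of_le h1 h)]
      exact ENNReal.tsum_le_tsum fun j => mul_le_mul_right (ih _ _ (by omega)) _
    · rw [if_neg h1]; exact zero_le

theorem av_neg {q : ℤ → ℝ≥0∞} (hsym : ∀ k, q (-k) = q k) :
    ∀ (l : List ℤ) (z : ℤ), av q (l.map fun x => -x) (fun _ => 1) (-z) =
      av q l (fun _ => 1) z := by
  intro l
  induction l with
  | nil => intro z; rfl
  | cons x l ih =>
    intro z
    simp only [av, List.map_cons, neg_inj]
    by_cases h : z = x
    · rw [if_pos h, if_pos h]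
    · rw [if_neg h, if_neg h]
      unfold conv
      rw [← (Equiv.neg ℤ).tsum_eq]
      refine tsum_congr fun k => ?_
      rw [Equiv.neg_apply, hsym, ← neg_add, ih]

theorem jumps_neg : ∀ l : List ℤ, jumps (l.map fun x => -x) = jumps l
  | [] => rfl
  | [_] => rfl
  | a :: b :: l => by
    have ih := jumps_neg (b :: l)
    simp only [List.map_cons] at ih ⊢
    simp only [jumps, ih, ne_eq, neg_inj]

/-- error term -/
noncomputable def Er (s : ℝ≥0) (l : List ℤ) : ℝ≥0 := l.length * s ^ 2 + jumps l * s

theorem upper {s : ℝ≥0} (hA1 : TaskA1) (hA2 : TaskA2) (R : ℕ) :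
    ∀ (l : List ℤ) (x : ℤ), (∀ v ∈ x :: l, -(R : ℤ) ≤ v) →
      List.IsChain (fun a b : ℤ => |b - a| ≤ 1) (x :: l) → ∀ z : ℤ, x < z →
      av (sk s) (x :: l) (fun _ => 1) z ≤ phi (sk s) l.length (z + R + 1) +
        (Er s (x :: l) : ℝ≥0∞) := by
  have hq : ∑' k, sk s k = 1 := hA1.2.2.1 s
  intro l
  induction l with
  | nil =>
    intro x hv _ z hz
    have hx := hv x (by simp)
    refine (av_le_one hq _ _).trans ?_
    simp only [List.length_nil, phi]
    rw [if_pos (by omega)]
    exact le_self_add
  | cons x' l ih =>
    intro x hv hc z hz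
    have hx := hv x (by simp)
    rw [List.isChain_cons_cons] at hc
    obtain ⟨hxx, hc'⟩ := hc
    have ih' := ih x' (fun v hv' => hv v (List.mem_cons_of_mem _ hv')) hc'
    set c : ℝ≥0∞ := if x ≠ x' then 1 else 0 with hcdef
    have key : ∀ k : ℤ, av (sk s) (x' :: l) (fun _ => 1) (z + k) ≤
        (phi (sk s) l.length (z + R + 1 + k) + (Er s (x' :: l) : ℝ≥0∞)) +
          ((if 2 ≤ |k| then 1 else 0) + c * (if k ≠ 0 then 1 else 0)) := by
      intro k
      rcases lt_trichotomy (z + k) x' with h | h | h
      · -- crossing
        refine (av_le_one hq _ _).trans ?_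
        refine le_trans ?_ le_add_self
        rw [abs_le] at hxx
        by_cases h2 : 2 ≤ |k|
        · rw [if_pos h2]; exact le_self_add
        · rw [if_neg h2, zero_add]
          rw [not_le, abs_lt] at h2
          have hne : x ≠ x' := by
            intro he
            subst he
            omega
          have hk : k ≠ 0 := by
            intro he
            subst he
            omega
          rw [hcdef, if_pos hne, if_pos hk, one_mul]
      · have : av (sk s) (x' :: l) (fun _ => 1) (z + k) = 0 := by
          simp [av, h]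
        rw [this]
        exact zero_le
      · refine (ih' (z + k) h).trans ?_
        have : z + k + (R : ℤ) + 1 = z + R + 1 + k := by ring
        rw [this]
        exact le_self_add
    have h1 : av (sk s) (x :: x' :: l) (fun _ => 1) z =
        conv (sk s) (av (sk s) (x' :: l) fun _ => 1) z := by
      conv_lhs => unfold av
      rw [if_neg (by omega)]
    have h2 : phi (sk s) (x' :: l).length (z + R + 1) =
        conv (sk s) (phi (sk s) l.length) (z + R + 1) := by
      rw [List.length_cons]
      conv_lhs => unfold phi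
      rw [if_pos (by omega)]
    rw [h1, h2]
    have h3 : ∑' k, sk s k * (if 2 ≤ |k| then (1 : ℝ≥0∞) else 0) ≤ (s ^ 2 : ℝ≥0) := by
      refine le_trans (le_of_eq ?_) (hA2.2.1 s)
      exact tsum_congr fun k => by rw [mul_ite, mul_one, mul_zero]
    have h4 : ∑' k, sk s k * (if k ≠ 0 then (1 : ℝ≥0∞) else 0) ≤ s := by
      refine le_trans (le_of_eq ?_) (hA2.1 s)
      exact tsum_congr fun k => by rw [mul_ite, mul_one, mul_zero]
    calc conv (sk s) (av (sk s) (x' :: l) fun _ => 1) z
        ≤ ∑' k, sk s k * ((phi (sk s) l.length (z + R + 1 + k) + (Er s (x' :: l) : ℝ≥0∞)) +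
          ((if 2 ≤ |k| then 1 else 0) + c * (if k ≠ 0 then 1 else 0))) :=
          ENNReal.tsum_le_tsum fun k => mul_le_mul_right (key k) _
      _ = conv (sk s) (phi (sk s) l.length) (z + R + 1) + (Er s (x' :: l) : ℝ≥0∞) +
          ((∑' k, sk s k * (if 2 ≤ |k| then (1 : ℝ≥0∞) else 0)) +
            c * ∑' k, sk s k * (if k ≠ 0 then (1 : ℝ≥0∞) else 0)) := by
          rw [← ENNReal.tsum_mul_left]
          have e0 : (Er s (x' :: l) : ℝ≥0∞) = ∑' k, sk s k * (Er s (x' :: l) : ℝ≥0∞) := by
            rw [ENNReal.tsum_mul_right, hq, one_mul]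
          conv_rhs => rw [e0]
          unfold conv
          rw [← ENNReal.tsum_add, ← ENNReal.tsum_add, ← ENNReal.tsum_add]
          exact tsum_congr fun k => by ring
      _ ≤ conv (sk s) (phi (sk s) l.length) (z + R + 1) + (Er s (x' :: l) : ℝ≥0∞) +
          ((s ^ 2 : ℝ≥0) + c * s) := by gcongr
      _ = conv (sk s) (phi (sk s) l.length) (z + R + 1) + (Er s (x :: x' :: l) : ℝ≥0∞) := by
          rw [add_assoc]
          congr 1
          have hc1 : c = (((if x ≠ x' then 1 else 0 : ℝ≥0)) : ℝ≥0∞) := by
            rw [hcdef]; split_ifs <;> simp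
          rw [hc1]
          have : Er s (x :: x' :: l) = Er s (x' :: l) + (s ^ 2 + (if x ≠ x' then 1 else 0) * s) := by
            unfold Er
            simp only [List.length_cons, jumps]
            push_cast
            split_ifs <;> ring
          rw [this]
          push_cast
          rfl

theorem taskCross : TaskCross := by
  intro hA1 hA2 s R J l hl hv hg z
  obtain ⟨hc, hJ⟩ := hg
  have hsym : ∀ k, sk s (-k) = sk s k := fun k => hA1.2.1 s k
  have hE : (Er s l : ℝ≥0∞) ≤ ENNReal.ofReal (2 * (l.length * s ^ 2 + J * s)) := by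
    rw [← ENNReal.ofReal_coe_nnreal]
    apply ENNReal.ofReal_le_ofReal
    unfold Er
    push_cast
    have h1 : (jumps l : ℝ) * s ≤ J * s :=
      mul_le_mul_of_nonneg_right (by exact_mod_cast hJ) s.2
    have h2 : (0 : ℝ) ≤ l.length * (s : ℝ) ^ 2 := by positivity
    have h3 : (0 : ℝ) ≤ J * (s : ℝ) := by positivity
    linarith
  cases l with
  | nil => exact absurd rfl hl
  | cons x l =>
    have hlen : (x :: l).length - 1 = l.length := by simp
    rw [hlen]
    rcases lt_trichotomy z x with h | h | h
    · have hneg := upper (s := s) hA1 hA2 R (l.map fun x => -x) (-x)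
        (by
          intro v hv'
          have : ∃ u ∈ x :: l, v = -u := by
            rcases List.mem_cons.1 hv' with h1 | h1
            · exact ⟨x, by simp, h1⟩
            · obtain ⟨u, hu, rfl⟩ := List.mem_map.1 h1
              exact ⟨u, List.mem_cons_of_mem _ hu, rfl⟩
          obtain ⟨u, hu, rfl⟩ := this
          have := hv u hu
          rw [abs_le] at this
          omega)
        (by
          have h1 : List.IsChain (fun a b : ℤ => |b - a| ≤ 1) ((x :: l).map fun x => -x) := by
            rw [List.isChain_map]
            refine hc.imp ?_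
            intro a b hab
            rw [abs_le] at hab ⊢
            omega
          simpa using h1)
        (-z) (by omega)
      have e1 := av_neg (q := sk s) hsym (x :: l) z
      rw [List.map_cons] at e1
      rw [e1] at hneg
      have e2 : Er s (-x :: l.map fun x => -x) = Er s (x :: l) := by
        unfold Er
        have := jumps_neg (x :: l)
        rw [List.map_cons] at this
        rw [this]
        simp
      rw [e2, List.length_map] at hneg
      refine hneg.trans (add_le_add (phi_mono _ _ _ _ ?_) hE)
      have := neg_le_abs z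
      omega
    · have : av (sk s) (x :: l) (fun _ => 1) z = 0 := by simp [av, h]
      rw [this]
      exact zero_le
    · refine (upper hA1 hA2 R l x ?_ hc z h).trans (add_le_add (phi_mono _ _ _ _ ?_) hE)
      · intro v hv'
        have := hv v hv'
        rw [abs_le] at this
        exact this.1
      · have := le_abs_self z
        omega

end Pool.Agent.H62R3.MT
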